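import Pool.Agent.H47.CoreC

/-!
# Stable manifolds of diffeomorphisms of the 3-torus are not generically immersed cells

The base map is the model map `(x, y, t) ↦ (26x+5y, 5x+y, t + ε v(t) + ε β cos 2πx)` of `T³`.

* `r ≥ 2`: every diffeomorphism that is `C²`-close to it has a point `x` whose stable manifold is a
  two-dimensional piece bounded by the orbit of `x` in the centre direction, so it is not a cell
  without boundary.
* `r = 1`: in a `C¹`-neighbourhood of the base map the same holds for a non-meagre set of
  diffeomorphisms; the points `x` are found by a Baire category argument in a space of pairs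
  (diffeomorphism, point), with small kinks placed along orbits.
-/

namespace Pool.Agent.Results.MP_62114c_an.NotGeneric

open Pool.Agent.H47

/-- For every `1 ≤ r ≤ ∞`, `Diff^r(T³)` is a Baire space in which property (C) is not generic: the
set of diffeomorphisms with property (C) is not residual, that is, the set of those without it is
not meagre. For `2 ≤ r ≤ ∞` property (C) even fails on a nonempty open set. -/
theorem result (r : ℕ∞) (hr : 1 ≤ r) :
    BaireSpace (Dyn r) ∧
      (¬ ∀ᶠ f in residual (Dyn r), PropC f) ∧
      ¬ IsMeagre {f : Dyn r | ¬ PropC f} ∧
      (2 ≤ r → ∃ U : Set (Dyn r), IsOpen U ∧ U.Nonempty ∧ ∀ f ∈ U, ¬ PropC f) := by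
  have hB : BaireSpace (Dyn r) := baire_dyn hr
  have key : ¬ ∀ᶠ f in residual (Dyn r), PropC f := by
    rcases lt_or_ge r 2 with h | h
    · have h1 : r = 1 := by
        apply le_antisymm _ hr
        have h' : r < 1 + 1 := by rw [one_add_one_eq_two]; exact h
        exact Order.le_of_lt_add_one h'
      subst h1
      exact not_generic_one
    · obtain ⟨U, hU, hne, hfail⟩ := exists_open_fail h
      intro hgen
      obtain ⟨f, hfU, hf⟩ := (dense_of_mem_residual hgen).inter_open_nonempty U hU hne
      exact hfail f hfU hf
  refine ⟨hB, key, ?_, fun h => exists_open_fail h⟩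
  intro hm
  apply key
  unfold IsMeagre at hm
  filter_upwards [hm] with f hf
  by_contra hcon
  exact hf hcon

end Pool.Agent.Results.MP_62114c_an.NotGeneric
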